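import Pool.Agent.W538.Tor.Final

/-!
Metrics on the torus which are close to the metric of a torus of revolution, but are not induced
by any map of class `C³` to Euclidean three-space: their total positive curvature is smaller than
`4π`, while the normals of a closed surface at its points of nonnegative curvature cover the sphere.
-/

namespace Pool.Agent.Results.MP_665542_gt.NotStable

open Pool.Agent.W538.Tor Bundle Manifold Topology
open scoped ContDiff

/-- For every standard torus of revolution, with radii `0 < b < a` and induced metric `g₀`, and
every `ε > 0` there is a smooth Riemannian metric `g` on the torus with `‖g - g₀‖_{C⁰} < ε` which is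
not induced by any map of class `C³` to Euclidean three-space. -/
theorem result (a b : ℝ) (hb : 0 < b) (hab : b < a) :
    UnstableSquare (V := EuclideanSpace ℝ (Fin 1)) (torusMap a b) := by
  refine ⟨⟨contMDiff_torusMap a b, isEmbedding_torusMap hb hab, D_torus_inj hb hab⟩, g0 hb hab,
    induces_g0 hb hab, ?_⟩
  intro ε hε
  have hδ : 0 < min (1 / 2) (ε / 8) := lt_min (by norm_num) (by linarith)
  set δ := min (1 / 2) (ε / 8) with hd
  have h1 : δ ≤ 1 / 2 := min_le_left _ _
  have h2 : δ ≤ ε / 8 := min_le_right _ _
  have hc : 0 < 1 - δ := by linarith
  have hc1 : 1 - δ < 1 := by linarith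
  refine ⟨g1 hb hab hc hc1.le, ⟨_, ?_, distLE_g1 hb hab hc hc1.le⟩,
    fun f hf => not_induces_g1 hb hab hc hc1 hf⟩
  nlinarith

end Pool.Agent.Results.MP_665542_gt.NotStable
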